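import Pool.Agent.U552.AU.Col

/-!
No finite automaton separates the numbers `2 m²` from the congruent numbers.
-/

set_option autoImplicit false

namespace Pool.Agent.U552.AU

/-- `n` is the area of a right triangle with rational sides. -/
def Tri (n : ℕ) : Prop :=
  ∃ a b c : ℚ, 0 < a ∧ 0 < b ∧ 0 < c ∧ a ^ 2 + b ^ 2 = c ^ 2 ∧ (n : ℚ) = a * b / 2

/-- twice a square is not congruent -/
theorem not_tri (m : ℕ) : ¬ Tri (2 * m ^ 2) := by
  rintro ⟨a, b, c, ha, hb, hc, h1, h2⟩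
  have h3 : a * b = (2 * m) ^ 2 := by
    push_cast at h2
    linarith
  have hm : m ≠ 0 := by
    rintro rfl
    have : 0 < a * b := mul_pos ha hb
    rw [h3] at this
    norm_num at this
  have h4 : a ^ 4 + (2 * m) ^ 4 = (a * c) ^ 2 := by
    have e : ((2 : ℚ) * m) ^ 4 = (a * b) ^ 2 := by rw [h3]; ring
    rw [e, mul_pow a c, ← h1]
    ring
  have hna : a.num ≠ 0 := (Rat.num_pos.2 ha).ne'
  have hda : (a.den : ℤ) ≠ 0 := by exact_mod_cast a.den_nz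
  have hdc : (c.den : ℤ) ≠ 0 := by exact_mod_cast c.den_nz
  refine not_fermat_42 (a := a.num * c.den) (b := 2 * m * a.den * c.den) (c := a.num * c.den * (c.num * a.den))
    (mul_ne_zero hna hdc) ?_ ?_
  · have : (m : ℤ) ≠ 0 := by exact_mod_cast hm
    exact mul_ne_zero (mul_ne_zero (mul_ne_zero (by norm_num) this) hda) hdc
  · have ea : (a.num : ℚ) = a * a.den := by
      rw [Rat.mul_den_eq_num]
    have ec : (c.num : ℚ) = c * c.den := by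
      rw [Rat.mul_den_eq_num]
    have : ((a.num : ℚ) * c.den) ^ 4 + (2 * m * a.den * c.den) ^ 4 = (a.num * c.den * (c.num * a.den)) ^ 2 := by
      rw [ea, ec]
      have e2 : (a * a.den * c.den) ^ 4 + (2 * m * a.den * c.den) ^ 4 =
          (a ^ 4 + (2 * m) ^ 4) * ((a.den : ℚ) * c.den) ^ 4 := by ring
      rw [e2, h4]
      ring
    exact_mod_cast this

/-- the numbers `α (α² x⁴ - t⁴)` are congruent -/
theorem tri_of (α x t n : ℕ) (hα : 1 ≤ α) (hx : 1 ≤ x) (ht : 1 ≤ t) (hn : 1 ≤ n)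
    (h : α ^ 3 * x ^ 4 = n + α * t ^ 4) : Tri n := by
  have hα' : (0 : ℚ) < α := by exact_mod_cast hα
  have hx' : (0 : ℚ) < x := by exact_mod_cast hx
  have ht' : (0 : ℚ) < t := by exact_mod_cast ht
  have hn' : (0 : ℚ) < n := by exact_mod_cast hn
  have h' : (α : ℚ) ^ 3 * x ^ 4 = n + α * t ^ 4 := by exact_mod_cast h
  have h1 : (n : ℚ) = α * (α ^ 2 * x ^ 4 - t ^ 4) := by linarith [h', show (α : ℚ) ^ 3 * x ^ 4 = α * (α ^ 2 * x ^ 4) by ring]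
  have h2 : (0 : ℚ) < α ^ 2 * x ^ 4 - t ^ 4 := by
    rw [h1] at hn'
    exact (mul_pos_iff_of_pos_left hα').1 hn'
  refine ⟨(α ^ 2 * x ^ 4 - t ^ 4) / (x * t), 2 * α * x * t, (α ^ 2 * x ^ 4 + t ^ 4) / (x * t), by positivity,
    by positivity, by positivity, ?_, ?_⟩
  · field_simp
    ring
  · rw [h1]
    field_simp

/-- reading the digits of a number with a given prefix -/
theorem eval_append {b : ℕ} (hb : 2 ≤ b) {σ : Type} (A : DFA ℕ σ) {K r u : ℕ} (hr : r < b ^ K) (hu : 1 ≤ u) :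
    A.eval (Nat.digits b (r + b ^ K * u)).reverse =
      A.evalFrom (A.eval (Nat.digits b u).reverse) (Nat.digits b r ++ List.replicate (K - (Nat.digits b r).length) 0).reverse := by
  have h1 : (Nat.digits b r).length ≤ K := (Nat.digits_length_le_iff (by omega) r).2 hr
  have h2 := Nat.digits_append_zeroes_append_digits (b := b) (k := K - (Nat.digits b r).length) (m := u) (n := r)
    (by omega) (by omega)
  rw [Nat.add_sub_cancel' h1] at h2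
  rw [← h2, List.reverse_append]
  exact DFA.evalFrom_of_append A A.start _ _

/-- **No finite automaton separates the numbers `2 m²` from the congruent numbers** (most significant digit first). -/
theorem main {b : ℕ} (hb : 2 ≤ b) {σ : Type} [Finite σ] (A : DFA ℕ σ)
    (h1 : ∀ m : ℕ, 1 ≤ m → (Nat.digits b (2 * m ^ 2)).reverse ∈ A.accepts) :
    ∃ n : ℕ, Tri n ∧ (Nat.digits b n).reverse ∈ A.accepts := by
  classical
  obtain ⟨v, w, hv, hw, hvw⟩ := square_diff (fun n => A.eval (Nat.digits b (2 * n)).reverse)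
  obtain ⟨u, hu⟩ : ∃ u, u = 2 * (v + w ^ 2) := ⟨_, rfl⟩
  have hw2 : 1 ≤ w ^ 2 := Nat.one_le_pow _ _ hw
  have hu1 : 1 ≤ u := by omega
  obtain ⟨α, hα⟩ : ∃ α, α = 2 * w ^ 2 := ⟨_, rfl⟩
  have hα1 : 1 ≤ α := by omega
  obtain ⟨j, hj⟩ : ∃ j, j = 4 * (α ^ 3 * u ^ 3) := ⟨_, rfl⟩
  obtain ⟨t, ht⟩ : ∃ t, t = b ^ j := ⟨_, rfl⟩
  have htj : 4 * (α ^ 3 * u ^ 3) ≤ t := by
    rw [ht, ← hj]
    exact (Nat.lt_pow_self (by omega)).le
  have hα3 : 1 ≤ α ^ 3 := Nat.one_le_pow _ _ hα1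
  have hu3 : 1 ≤ u ^ 3 := Nat.one_le_pow _ _ hu1
  have ht1 : 1 ≤ t := by rw [ht]; exact Nat.one_le_pow _ _ (by omega)
  -- the least x
  have hex : ∃ x : ℕ, u * t ^ 4 ≤ α ^ 3 * x ^ 4 := by
    refine ⟨u * t, ?_⟩
    have e : α ^ 3 * (u * t) ^ 4 = (α ^ 3 * u ^ 3) * (u * t ^ 4) := by ring
    rw [e]
    exact Nat.le_mul_of_pos_left _ (Nat.mul_pos hα3 hu3)
  obtain ⟨x, hx1, hx2⟩ : ∃ x : ℕ, u * t ^ 4 ≤ α ^ 3 * x ^ 4 ∧ ∀ y < x, ¬ u * t ^ 4 ≤ α ^ 3 * y ^ 4 :=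
    ⟨Nat.find hex, Nat.find_spec hex, fun y hy => Nat.find_min hex hy⟩
  have ht4 : 1 ≤ t ^ 4 := Nat.one_le_pow _ _ ht1
  have hut4 : 1 ≤ u * t ^ 4 := Nat.mul_pos hu1 ht4
  have hx0 : 1 ≤ x := by
    rcases Nat.eq_zero_or_pos x with h | h
    · rw [h] at hx1
      omega
    · exact h
  have hxu : x ≤ u * t := by
    by_contra hcon
    refine hx2 (u * t) (by omega) ?_
    have e : α ^ 3 * (u * t) ^ 4 = (α ^ 3 * u ^ 3) * (u * t ^ 4) := by ring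
    rw [e]
    exact Nat.le_mul_of_pos_left _ (Nat.mul_pos hα3 hu3)
  have hxlt : α ^ 3 * x ^ 4 < u * t ^ 4 + t ^ 4 := by
    obtain ⟨y, rfl⟩ : ∃ y, x = y + 1 := ⟨x - 1, by omega⟩
    have g1 : α ^ 3 * y ^ 4 < u * t ^ 4 := not_le.1 (hx2 y (by omega))
    have g2 : (y + 1) ^ 4 ≤ y ^ 4 + 4 * (y + 1) ^ 3 := by
      have e : (y + 1) ^ 4 = y ^ 4 + 4 * y ^ 3 + 6 * y ^ 2 + 4 * y + 1 := by ring
      have e' : y ^ 4 + 4 * (y + 1) ^ 3 = y ^ 4 + 4 * y ^ 3 + 12 * y ^ 2 + 12 * y + 4 := by ring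
      omega
    have g3 : (y + 1) ^ 3 ≤ (u * t) ^ 3 := Nat.pow_le_pow_left hxu 3
    calc α ^ 3 * (y + 1) ^ 4 ≤ α ^ 3 * (y ^ 4 + 4 * (u * t) ^ 3) := Nat.mul_le_mul_left _ (by omega)
      _ = α ^ 3 * y ^ 4 + (4 * (α ^ 3 * u ^ 3)) * t ^ 3 := by ring
      _ ≤ α ^ 3 * y ^ 4 + t * t ^ 3 := Nat.add_le_add_left (Nat.mul_le_mul_right _ htj) _
      _ = α ^ 3 * y ^ 4 + t ^ 4 := by ring
      _ < u * t ^ 4 + t ^ 4 := by omega
  obtain ⟨r, hr⟩ : ∃ r, α ^ 3 * x ^ 4 = u * t ^ 4 + r := ⟨α ^ 3 * x ^ 4 - u * t ^ 4, by omega⟩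
  have hrt : r < b ^ (4 * j) := by
    have e : b ^ (4 * j) = t ^ 4 := by rw [ht, ← pow_mul, mul_comm]
    rw [e]
    omega
  have hbt : b ^ (4 * j) = t ^ 4 := by rw [ht, ← pow_mul, mul_comm]
  -- the two numbers
  have hN1 : r + b ^ (4 * j) * u = 2 * (2 * w ^ 3 * x ^ 2) ^ 2 := by
    rw [hbt, add_comm, mul_comm, ← hr, hα]
    ring
  have hacc := h1 (2 * w ^ 3 * x ^ 2) (Nat.mul_pos (Nat.mul_pos two_pos (Nat.pow_pos hw)) (Nat.pow_pos hx0))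
  refine ⟨r + b ^ (4 * j) * (2 * v), ?_, ?_⟩
  · refine tri_of α x t _ hα1 hx0 ht1 ?_ ?_
    · have : 1 ≤ b ^ (4 * j) * (2 * v) := Nat.mul_pos (Nat.pow_pos (by omega)) (by omega)
      omega
    · rw [hr, hbt, hu, hα]
      ring
  · rw [DFA.mem_accepts, eval_append hb A hrt (by omega), hvw, ← hu, ← eval_append hb A hrt hu1, hN1, ← DFA.mem_accepts]
    exact hacc

end Pool.Agent.U552.AU
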