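import Mathlib

/-!
In every finite colouring of the positive integers two numbers of the same colour differ by a square (from the theorem of
Hales and Jewett, by colour focusing).
-/

set_option autoImplicit false

namespace Pool.Agent.U552.AU

open Finset Combinatorics

/-- the theorem of van der Waerden with bounds -/
theorem vdw (ℓ : ℕ) (κ : Type) [Finite κ] : ∃ W : ℕ, ∀ (χ : ℕ → κ) (M : ℕ), ∃ b D : ℕ, M ≤ b ∧ b ≤ M + W ∧ 1 ≤ D ∧
    D ≤ W ∧ ∀ j ≤ ℓ, χ (b + j * D) = χ b := by
  classical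
  obtain ⟨ι, _, hι⟩ := Line.exists_mono_in_high_dimension (Fin (ℓ + 1)) κ
  refine ⟨(ℓ + 1) * Fintype.card ι, fun χ M => ?_⟩
  obtain ⟨l, c, hl⟩ := hι (fun v => χ (M + ∑ i, ((v i : Fin (ℓ + 1)) : ℕ)))
  set s : Finset ι := univ.filter fun i => l.idxFun i = none with hs
  have h : ∀ x : Fin (ℓ + 1), ∑ i, ((l x i : Fin (ℓ + 1)) : ℕ) = ∑ i, ((l 0 i : Fin (ℓ + 1)) : ℕ) + x * s.card := by
    intro x
    have h1 : ∀ i, ((l x i : Fin (ℓ + 1)) : ℕ) = ((l 0 i : Fin (ℓ + 1)) : ℕ) +
        if l.idxFun i = none then (x : ℕ) else 0 := by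
      intro i
      rw [l.apply_def, l.apply_def]
      rcases h : l.idxFun i with _ | y
      · simp [h]
      · simp [h]
    rw [sum_congr rfl (fun i _ => h1 i), sum_add_distrib, ← sum_filter, sum_const, smul_eq_mul, mul_comm (x : ℕ)]
  have hb : ∑ i, ((l 0 i : Fin (ℓ + 1)) : ℕ) ≤ (ℓ + 1) * Fintype.card ι := by
    calc ∑ i, ((l 0 i : Fin (ℓ + 1)) : ℕ) ≤ ∑ _i : ι, (ℓ + 1) := sum_le_sum fun i _ => (l 0 i).2.le
      _ = (ℓ + 1) * Fintype.card ι := by rw [sum_const, smul_eq_mul, card_univ, mul_comm]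
  refine ⟨M + ∑ i, ((l 0 i : Fin (ℓ + 1)) : ℕ), s.card, by omega, by omega, ?_, ?_, ?_⟩
  · obtain ⟨i, hi⟩ := l.proper
    exact Finset.card_pos.2 ⟨i, by rw [hs, mem_filter]; exact ⟨mem_univ _, hi⟩⟩
  · calc s.card ≤ Fintype.card ι := card_le_univ s
      _ ≤ (ℓ + 1) * Fintype.card ι := Nat.le_mul_of_pos_left _ (Nat.succ_pos ℓ)
  · intro j hj
    have h1 := hl ⟨j, by omega⟩
    have h2 := hl 0
    simp only at h1 h2
    rw [h] at h1
    rw [h2, ← h1, add_assoc]

/-- **Squares as differences in finite colourings.** -/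
theorem square_diff {κ : Type} [Finite κ] (χ : ℕ → κ) : ∃ u w : ℕ, 1 ≤ u ∧ 1 ≤ w ∧ χ u = χ (u + w ^ 2) := by
  classical
  by_contra hno
  push Not at hno
  have key : ∀ k : ℕ, ∃ L : ℕ, ∀ M : ℕ, 1 ≤ M → ∃ a : ℕ, M ≤ a ∧ a ≤ M + L ∧ ∃ n : Fin k → ℕ,
      (∀ i, 1 ≤ n i ∧ n i ≤ L) ∧ Function.Injective (fun i => χ (a + n i ^ 2)) := by
    intro k
    induction k with
    | zero => exact ⟨0, fun M _ => ⟨M, le_rfl, le_rfl, fun i => i.elim0, fun i => i.elim0, fun i => i.elim0⟩⟩
    | succ k ih =>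
      obtain ⟨L, hL⟩ := ih
      obtain ⟨W, hW⟩ := vdw (2 * L) (Fin (L + L ^ 2 + 1) → κ)
      refine ⟨W ^ 2 + 2 * W + L, fun M hM => ?_⟩
      obtain ⟨b, D, hb1, hb2, hD1, hD2, hpat⟩ := hW (fun m i => χ (m + i)) (M + W ^ 2)
      obtain ⟨a, ha1, ha2, n, hn, hinj⟩ := hL b (by omega)
      have hDW : D ^ 2 ≤ W ^ 2 := Nat.pow_le_pow_left hD2 2
      have hshift : ∀ i, χ (a - D ^ 2 + (n i + D) ^ 2) = χ (a + n i ^ 2) := by
        intro i
        obtain ⟨h1, h2⟩ := hn i
        have h3 : n i ^ 2 ≤ L ^ 2 := Nat.pow_le_pow_left h2 2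
        have h4 := congrFun (hpat (2 * n i) (by omega)) ⟨a - b + n i ^ 2, by omega⟩
        simp only at h4
        have e1 : b + 2 * n i * D + (a - b + n i ^ 2) = a - D ^ 2 + (n i + D) ^ 2 := by
          have : (n i + D) ^ 2 = n i ^ 2 + 2 * n i * D + D ^ 2 := by ring
          omega
        have e2 : b + (a - b + n i ^ 2) = a + n i ^ 2 := by omega
        rw [e1, e2] at h4
        exact h4
      have hnew : χ (a - D ^ 2 + D ^ 2) = χ a := by
        have : a - D ^ 2 + D ^ 2 = a := by omega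
        rw [this]
      refine ⟨a - D ^ 2, by omega, by omega, Fin.cons D (fun i => n i + D), ?_, ?_⟩
      · intro i
        refine Fin.cases ?_ (fun i => ?_) i
        · simp only [Fin.cons_zero]
          omega
        · simp only [Fin.cons_succ]
          have := hn i
          omega
      · have hne : ∀ i, χ (a - D ^ 2 + D ^ 2) ≠ χ (a - D ^ 2 + (n i + D) ^ 2) := by
          intro i
          rw [hnew, hshift]
          exact hno a (n i) (by omega) (hn i).1
        intro i j
        refine Fin.cases ?_ (fun i => ?_) i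
        · refine Fin.cases ?_ (fun j => ?_) j
          · intro _; rfl
          · intro h
            simp only [Fin.cons_zero, Fin.cons_succ] at h
            exact absurd h (hne j)
        · refine Fin.cases ?_ (fun j => ?_) j
          · intro h
            simp only [Fin.cons_zero, Fin.cons_succ] at h
            exact absurd h.symm (hne i)
          · intro h
            simp only [Fin.cons_succ] at h
            rw [hshift, hshift] at h
            exact congrArg Fin.succ (hinj h)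
  obtain ⟨L, hL⟩ := key (Nat.card κ + 1)
  obtain ⟨a, -, -, n, -, hinj⟩ := hL 1 le_rfl
  have := Nat.card_le_card_of_injective _ hinj
  rw [Nat.card_eq_fintype_card, Fintype.card_fin] at this
  omega

end Pool.Agent.U552.AU
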