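import Pool.Agent.U552.AU.Aut

/-!
Every finite automaton makes at least `c X ^ (1/4)` errors in the separation of the numbers `2 m²` from the congruent
numbers up to `X`.
-/

set_option autoImplicit false

namespace Pool.Agent.U552.AU

open Finset

/-- the two numbers with the prefixes `u`, `u'` -/
theorem pair {b : ℕ} (hb : 2 ≤ b) {σ : Type} (A : DFA ℕ σ) {v w u α j t x : ℕ} (hv : 1 ≤ v) (hw : 1 ≤ w)
    (hu : u = 2 * (v + w ^ 2)) (hα : α = 2 * w ^ 2) (ht : t = b ^ j)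
    (hvw : A.eval (Nat.digits b (2 * v)).reverse = A.eval (Nat.digits b (2 * (v + w ^ 2))).reverse)
    (hx1 : u * t ^ 4 ≤ α ^ 3 * x ^ 4) (hx2 : α ^ 3 * x ^ 4 < (u + 1) * t ^ 4) :
    (∃ m : ℕ, 1 ≤ m ∧ α ^ 3 * x ^ 4 = 2 * m ^ 2) ∧ α * t ^ 4 < α ^ 3 * x ^ 4 ∧ Tri (α ^ 3 * x ^ 4 - α * t ^ 4) ∧
      ((Nat.digits b (α ^ 3 * x ^ 4)).reverse ∈ A.accepts →
        (Nat.digits b (α ^ 3 * x ^ 4 - α * t ^ 4)).reverse ∈ A.accepts) := by
  have hw2 : 1 ≤ w ^ 2 := Nat.one_le_pow _ _ hw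
  have ht1 : 1 ≤ t := by rw [ht]; exact Nat.one_le_pow _ _ (by omega)
  have ht4 : 1 ≤ t ^ 4 := Nat.one_le_pow _ _ ht1
  have hx0 : 1 ≤ x := by
    rcases Nat.eq_zero_or_pos x with h | h
    · rw [h] at hx1
      have : 1 ≤ u * t ^ 4 := Nat.mul_pos (by omega) ht4
      omega
    · exact h
  obtain ⟨r, hr⟩ : ∃ r, α ^ 3 * x ^ 4 = u * t ^ 4 + r := ⟨α ^ 3 * x ^ 4 - u * t ^ 4, by omega⟩
  have hbt : b ^ (4 * j) = t ^ 4 := by rw [ht, ← pow_mul, mul_comm]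
  have hrt : r < b ^ (4 * j) := by
    rw [hbt]
    have : (u + 1) * t ^ 4 = u * t ^ 4 + t ^ 4 := by ring
    omega
  have e0 : u * t ^ 4 = α * t ^ 4 + 2 * v * t ^ 4 := by rw [hu, hα]; ring
  have hv4 : 1 ≤ 2 * v * t ^ 4 := Nat.mul_pos (by omega) ht4
  have e1 : α ^ 3 * x ^ 4 = r + b ^ (4 * j) * u := by rw [hr, hbt]; ring
  have e2 : α ^ 3 * x ^ 4 - α * t ^ 4 = r + b ^ (4 * j) * (2 * v) := by
    rw [hbt, mul_comm (t ^ 4)]
    omega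
  refine ⟨⟨2 * w ^ 3 * x ^ 2, Nat.mul_pos (Nat.mul_pos two_pos (Nat.pow_pos hw)) (Nat.pow_pos hx0), by rw [hα]; ring⟩,
    by omega, tri_of α x t _ (by omega) hx0 ht1 (by omega) (by omega), ?_⟩
  rw [e2, e1, DFA.mem_accepts, DFA.mem_accepts, eval_append hb A hrt (by omega), eval_append hb A hrt (by omega), hvw, ← hu]
  exact id

open Classical in
/-- **Errors of finite automata.** -/
theorem errors {b : ℕ} (hb : 2 ≤ b) {σ : Type} [Finite σ] (A : DFA ℕ σ) :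
    ∃ c X₀ : ℝ, 0 < c ∧ ∀ X : ℝ, X₀ ≤ X → ∃ E : Finset ℕ, c * X ^ (1 / 4 : ℝ) ≤ E.card ∧ ∀ n ∈ E, (n : ℝ) ≤ X ∧
      ((∃ m : ℕ, 1 ≤ m ∧ n = 2 * m ^ 2 ∧ (Nat.digits b n).reverse ∉ A.accepts) ∨
        (Tri n ∧ (Nat.digits b n).reverse ∈ A.accepts)) := by
  obtain ⟨v, w, hv, hw, hvw⟩ := square_diff (fun n => A.eval (Nat.digits b (2 * n)).reverse)
  obtain ⟨u, hu⟩ : ∃ u, u = 2 * (v + w ^ 2) := ⟨_, rfl⟩
  have hw2 : 1 ≤ w ^ 2 := Nat.one_le_pow _ _ hw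
  have hu1 : 1 ≤ u := by omega
  obtain ⟨α, hα⟩ : ∃ α, α = 2 * w ^ 2 := ⟨_, rfl⟩
  have hα1 : 1 ≤ α := by omega
  have hα3 : 1 ≤ α ^ 3 := Nat.one_le_pow _ _ hα1
  have hu3 : 1 ≤ u ^ 3 := Nat.one_le_pow _ _ hu1
  obtain ⟨q, hq⟩ : ∃ q, q = 4 * (α ^ 3 * (u + 1) ^ 3) := ⟨_, rfl⟩
  have hq1 : 1 ≤ q := by
    have : 1 ≤ α ^ 3 * (u + 1) ^ 3 := Nat.mul_pos hα3 (Nat.pow_pos (by omega))
    omega
  -- many x
  have hcount : ∀ j : ℕ, ∃ x₀ : ℕ, ∀ i : ℕ, (i + 1) * q ≤ b ^ j →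
      u * (b ^ j) ^ 4 ≤ α ^ 3 * (x₀ + i) ^ 4 ∧ α ^ 3 * (x₀ + i) ^ 4 < (u + 1) * (b ^ j) ^ 4 := by
    intro j
    obtain ⟨t, ht⟩ : ∃ t, t = b ^ j := ⟨_, rfl⟩
    rw [← ht]
    have ht1 : 1 ≤ t := by rw [ht]; exact Nat.one_le_pow _ _ (by omega)
    have ht4 : 1 ≤ t ^ 4 := Nat.one_le_pow _ _ ht1
    have hut4 : 1 ≤ u * t ^ 4 := Nat.mul_pos hu1 ht4
    have hbig : u * t ^ 4 ≤ α ^ 3 * (u * t) ^ 4 := by
      have e : α ^ 3 * (u * t) ^ 4 = (α ^ 3 * u ^ 3) * (u * t ^ 4) := by ring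
      rw [e]
      exact Nat.le_mul_of_pos_left _ (Nat.mul_pos hα3 hu3)
    have hex : ∃ x : ℕ, u * t ^ 4 ≤ α ^ 3 * x ^ 4 := ⟨u * t, hbig⟩
    obtain ⟨x, hx1, hx2⟩ : ∃ x : ℕ, u * t ^ 4 ≤ α ^ 3 * x ^ 4 ∧ ∀ y < x, ¬ u * t ^ 4 ≤ α ^ 3 * y ^ 4 :=
      ⟨Nat.find hex, Nat.find_spec hex, fun y hy => Nat.find_min hex hy⟩
    have hx0 : 1 ≤ x := by
      rcases Nat.eq_zero_or_pos x with h | h
      · rw [h] at hx1
        omega
      · exact h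
    have hxu : x ≤ u * t := by
      by_contra hcon
      exact hx2 (u * t) (by omega) hbig
    refine ⟨x, fun i hi => ⟨hx1.trans (Nat.mul_le_mul_left _ (Nat.pow_le_pow_left (Nat.le_add_right x i) 4)), ?_⟩⟩
    obtain ⟨y, rfl⟩ : ∃ y, x = y + 1 := ⟨x - 1, by omega⟩
    have g1 : α ^ 3 * y ^ 4 < u * t ^ 4 := not_le.1 (hx2 y (by omega))
    have hit : i + 1 ≤ t := (Nat.le_mul_of_pos_right _ hq1).trans hi
    have g3 : (y + 1 + i) ^ 3 ≤ ((u + 1) * t) ^ 3 := by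
      refine Nat.pow_le_pow_left ?_ 3
      have : (u + 1) * t = u * t + t := by ring
      omega
    have g2 : (y + 1 + i) ^ 4 ≤ y ^ 4 + 4 * (i + 1) * (y + 1 + i) ^ 3 := by
      have h1 : ((y : ℤ) + 1 + i) ^ 4 ≤ (y : ℤ) ^ 4 + 4 * (i + 1) * (y + 1 + i) ^ 3 := by
        have hy : (0 : ℤ) ≤ y := Int.natCast_nonneg y
        have hi' : (0 : ℤ) ≤ (i : ℤ) + 1 := by positivity
        have e : (y : ℤ) ^ 4 + 4 * (i + 1) * (y + 1 + i) ^ 3 - ((y : ℤ) + 1 + i) ^ 4 =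
            6 * y ^ 2 * (i + 1) ^ 2 + 8 * y * (i + 1) ^ 3 + 3 * (i + 1) ^ 4 := by ring
        have : 0 ≤ 6 * (y : ℤ) ^ 2 * (i + 1) ^ 2 + 8 * y * (i + 1) ^ 3 + 3 * (i + 1) ^ 4 := by positivity
        linarith
      exact_mod_cast h1
    calc α ^ 3 * (y + 1 + i) ^ 4 ≤ α ^ 3 * (y ^ 4 + 4 * (i + 1) * (y + 1 + i) ^ 3) := Nat.mul_le_mul_left _ g2
      _ ≤ α ^ 3 * (y ^ 4 + 4 * (i + 1) * ((u + 1) * t) ^ 3) :=
          Nat.mul_le_mul_left _ (Nat.add_le_add_left (Nat.mul_le_mul_left _ g3) _)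
      _ = α ^ 3 * y ^ 4 + ((i + 1) * (4 * (α ^ 3 * (u + 1) ^ 3))) * t ^ 3 := by ring
      _ ≤ α ^ 3 * y ^ 4 + t * t ^ 3 := Nat.add_le_add_left (Nat.mul_le_mul_right _ (by rw [← hq]; exact hi)) _
      _ = α ^ 3 * y ^ 4 + t ^ 4 := by ring
      _ < (u + 1) * t ^ 4 := by
          have : (u + 1) * t ^ 4 = u * t ^ 4 + t ^ 4 := by ring
          omega
  have hqr : (1 : ℝ) ≤ q := by exact_mod_cast hq1
  have hbr : (2 : ℝ) ≤ b := by exact_mod_cast hb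
  have hur : (1 : ℝ) ≤ u := by exact_mod_cast hu1
  refine ⟨1 / (4 * q * b * ((u : ℝ) + 1)), ((u : ℝ) + 1) * (b * q) ^ 4, by positivity, fun X hX => ?_⟩
  set Y : ℝ := (X / ((u : ℝ) + 1)) ^ (1 / 4 : ℝ) with hY
  have hu0 : (0 : ℝ) < (u : ℝ) + 1 := by positivity
  have hbq : (0 : ℝ) < b * q := by positivity
  have hX0 : 0 < X := lt_of_lt_of_le (by positivity) hX
  have hY4 : Y ^ 4 = X / ((u : ℝ) + 1) := by
    rw [hY, ← Real.rpow_natCast, ← Real.rpow_mul (by positivity)]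
    norm_num
  have hY0 : 0 < Y := by rw [hY]; positivity
  have hYbq : (b : ℝ) * q ≤ Y := by
    refine le_of_pow_le_pow_left₀ (n := 4) (by norm_num) hY0.le ?_
    rw [hY4, le_div_iff₀ hu0, mul_comm]
    exact hX
  have hfl : ⌊Y⌋₊ ≠ 0 := by
    have : 1 ≤ ⌊Y⌋₊ := by
      refine Nat.le_floor ?_
      push_cast
      nlinarith
    omega
  obtain ⟨j, hj⟩ : ∃ j, j = Nat.log b ⌊Y⌋₊ := ⟨_, rfl⟩
  have hj1 : b ^ j ≤ ⌊Y⌋₊ := by rw [hj]; exact Nat.pow_log_le_self b hfl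
  have hj2 : ⌊Y⌋₊ < b ^ (j + 1) := by rw [hj]; exact Nat.lt_pow_succ_log_self (by omega) _
  obtain ⟨t, ht⟩ : ∃ t, t = b ^ j := ⟨_, rfl⟩
  have htY : (t : ℝ) ≤ Y := by
    have : (t : ℝ) ≤ (⌊Y⌋₊ : ℝ) := by exact_mod_cast ht ▸ hj1
    exact this.trans (Nat.floor_le hY0.le)
  have hYt : Y ≤ t * b := by
    have h1 : ⌊Y⌋₊ + 1 ≤ t * b := by rw [ht, ← pow_succ]; omega
    have h2 : (⌊Y⌋₊ : ℝ) + 1 ≤ t * b := by exact_mod_cast h1
    exact (Nat.lt_floor_add_one Y).le.trans h2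
  have htq : q ≤ t := by
    have : (q : ℝ) ≤ t := by
      have h1 : (b : ℝ) * q ≤ b * t := by linarith
      exact le_of_mul_le_mul_left h1 (by positivity)
    exact_mod_cast this
  obtain ⟨x₀, hx₀⟩ := hcount j
  rw [← ht] at hx₀
  set S := range (t / q) with hS
  have hSi : ∀ i ∈ S, u * t ^ 4 ≤ α ^ 3 * (x₀ + i) ^ 4 ∧ α ^ 3 * (x₀ + i) ^ 4 < (u + 1) * t ^ 4 := by
    intro i hi
    rw [hS, mem_range] at hi
    refine hx₀ i ?_
    calc (i + 1) * q ≤ (t / q) * q := Nat.mul_le_mul_right _ hi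
      _ ≤ t := Nat.div_mul_le_self t q
  have hpair : ∀ i ∈ S, _ := fun i hi => pair hb A hv hw hu hα ht hvw (hSi i hi).1 (hSi i hi).2
  set N₁ : ℕ → ℕ := fun i => α ^ 3 * (x₀ + i) ^ 4 with hN₁
  have hN₁mono : StrictMono N₁ := by
    intro i k hik
    exact Nat.mul_lt_mul_of_pos_left (Nat.pow_lt_pow_left (by omega) (by norm_num)) hα3
  set S₁ := S.filter fun i => (Nat.digits b (N₁ i)).reverse ∉ A.accepts with hS₁
  set S₂ := S.filter fun i => ¬ (Nat.digits b (N₁ i)).reverse ∉ A.accepts with hS₂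
  have hcard : S₁.card + S₂.card = t / q := by
    rw [hS₁, hS₂, card_filter_add_card_filter_not, hS, card_range]
  have hNX : ∀ i ∈ S, ((N₁ i : ℕ) : ℝ) ≤ X := by
    intro i hi
    have h1 : ((N₁ i : ℕ) : ℝ) ≤ ((u : ℝ) + 1) * (t : ℝ) ^ 4 := by exact_mod_cast (hSi i hi).2.le
    have h2 : (t : ℝ) ^ 4 ≤ Y ^ 4 := pow_le_pow_left₀ (Nat.cast_nonneg t) htY 4
    rw [hY4] at h2
    calc ((N₁ i : ℕ) : ℝ) ≤ ((u : ℝ) + 1) * (t : ℝ) ^ 4 := h1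
      _ ≤ ((u : ℝ) + 1) * (X / ((u : ℝ) + 1)) := mul_le_mul_of_nonneg_left h2 hu0.le
      _ = X := by field_simp
  set N₂ : ℕ → ℕ := fun i => N₁ i - α * t ^ 4 with hN₂
  have hN₂inj : Set.InjOn N₂ (S₂ : Set ℕ) := by
    intro i hi k hk hik
    have h1 := (hpair i (mem_filter.1 hi).1).2.1
    have h2 := (hpair k (mem_filter.1 hk).1).2.1
    apply hN₁mono.injective
    simp only [hN₂, hN₁] at hik h1 h2 ⊢
    omega
  have hc1 : S₁.card ≤ (S₁.image N₁ ∪ S₂.image N₂).card := by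
    rw [← card_image_of_injective S₁ hN₁mono.injective]
    exact card_le_card subset_union_left
  have hc2 : S₂.card ≤ (S₁.image N₁ ∪ S₂.image N₂).card := by
    rw [← card_image_of_injOn hN₂inj]
    exact card_le_card subset_union_right
  refine ⟨S₁.image N₁ ∪ S₂.image N₂, ?_, ?_⟩
  · set E := S₁.image N₁ ∪ S₂.image N₂ with hE
    have h1 : ((t / q : ℕ) : ℝ) ≤ 2 * (E.card : ℝ) := by
      have : t / q ≤ 2 * E.card := by omega
      exact_mod_cast this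
    have h2 : (t : ℝ) ≤ 2 * q * ((t / q : ℕ) : ℝ) := by
      have g1 : 1 ≤ t / q := (Nat.one_le_div_iff (by omega)).2 htq
      have g2 : t < (t / q + 1) * q := by
        have := Nat.lt_div_mul_add (a := t) (b := q) (by omega)
        have e : (t / q + 1) * q = t / q * q + q := by ring
        omega
      have g3 : (t / q + 1) * q ≤ 2 * q * (t / q) := by
        have e : 2 * q * (t / q) = (t / q + t / q) * q := by ring
        rw [e]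
        exact Nat.mul_le_mul_right _ (by omega)
      have : t ≤ 2 * q * (t / q) := by omega
      exact_mod_cast this
    have h3 : X ^ (1 / 4 : ℝ) ≤ Y * ((u : ℝ) + 1) := by
      refine le_of_pow_le_pow_left₀ (n := 4) (by norm_num) (by positivity) ?_
      have e : (X ^ (1 / 4 : ℝ)) ^ 4 = X := by
        rw [← Real.rpow_natCast, ← Real.rpow_mul hX0.le]
        norm_num
      rw [e, mul_pow, hY4]
      have e2 : X = X / ((u : ℝ) + 1) * ((u : ℝ) + 1) := by field_simp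
      calc X = X / ((u : ℝ) + 1) * ((u : ℝ) + 1) := e2
        _ ≤ X / ((u : ℝ) + 1) * ((u : ℝ) + 1) ^ 4 :=
            mul_le_mul_of_nonneg_left (le_self_pow₀ (by linarith) (by norm_num)) (by positivity)
    have h4 : Y ≤ 4 * q * b * (E.card : ℝ) := by
      calc Y ≤ t * b := hYt
        _ ≤ (2 * q * ((t / q : ℕ) : ℝ)) * b := mul_le_mul_of_nonneg_right h2 (by positivity)
        _ ≤ (2 * q * (2 * (E.card : ℝ))) * b :=
            mul_le_mul_of_nonneg_right (mul_le_mul_of_nonneg_left h1 (by positivity)) (by positivity)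
        _ = 4 * q * b * (E.card : ℝ) := by ring
    rw [div_mul_eq_mul_div, one_mul, div_le_iff₀ (by positivity)]
    calc X ^ (1 / 4 : ℝ) ≤ Y * ((u : ℝ) + 1) := h3
      _ ≤ (4 * q * b * (E.card : ℝ)) * ((u : ℝ) + 1) := mul_le_mul_of_nonneg_right h4 (by positivity)
      _ = E.card * (4 * q * b * ((u : ℝ) + 1)) := by ring
  · intro n hn
    rw [mem_union, mem_image, mem_image] at hn
    rcases hn with ⟨i, hi, rfl⟩ | ⟨i, hi, rfl⟩
    · obtain ⟨hiS, hacc⟩ := mem_filter.1 hi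
      obtain ⟨m, hm1, hm2⟩ := (hpair i hiS).1
      exact ⟨hNX i hiS, Or.inl ⟨m, hm1, hm2, hacc⟩⟩
    · obtain ⟨hiS, hacc⟩ := mem_filter.1 hi
      obtain ⟨-, -, h3, h4⟩ := hpair i hiS
      refine ⟨?_, Or.inr ⟨h3, h4 (not_not.1 hacc)⟩⟩
      have h5 : N₂ i ≤ N₁ i := Nat.sub_le _ _
      have h6 : ((N₂ i : ℕ) : ℝ) ≤ N₁ i := by exact_mod_cast h5
      exact h6.trans (hNX i hiS)

end Pool.Agent.U552.AU
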